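import Mathlib

set_option autoImplicit false

namespace Pool.Agent.Results.MP_091941_lc.NotInv

open Filter Nat.Partrec.Code

structure Interp where
  fn : ∀ n, Set ((Fin n → ℕ) → ℕ)
  pr : ∀ n, Set ((Fin n → ℕ) → Bool)
  cf : ∀ n, ∀ f ∈ fn n, Computable f
  cp : ∀ n, ∀ p ∈ pr n, Computable p

inductive Node (N : Type) : Type
  | start (j : N)
  | op (n : ℕ) (f : (Fin n → ℕ) → ℕ) (a : Fin n → ℕ) (y : ℕ) (j : N)
  | test (n : ℕ) (p : (Fin n → ℕ) → Bool) (a : Fin n → ℕ) (j k : N)
  | halt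

structure Chart (F : Interp) where
  N : Type
  fin : Finite N
  lab : N → Node N
  s : N
  st : ∀ i, (∃ j, lab i = .start j) ↔ i = s
  o1 : ∀ i n f a y j, lab i = .op n f a y j → f ∈ F.fn n
  o2 : ∀ i n p a j k, lab i = .test n p a j k → p ∈ F.pr n

variable {F : Interp}

def Chart.step (C : Chart F) (c : C.N × (ℕ → ℕ)) : C.N × (ℕ → ℕ) :=
  match C.lab c.1 with
  | .start j => (j, c.2)
  | .op _ f a y j => (j, Function.update c.2 y (f fun i => c.2 (a i)))
  | .test _ p a j k => (if p fun i => c.2 (a i) then j else k, c.2)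
  | .halt => c

def Chart.conf (C : Chart F) (x k : ℕ) : C.N × (ℕ → ℕ) :=
  C.step^[k] (C.s, fun v => if v = 0 then x else 0)

/-- on input `x` the run executes `k + 1` nodes, the last one a halt node, with output `y` -/
def Chart.Halts (C : Chart F) (o x k y : ℕ) : Prop :=
  C.lab (C.conf x k).1 = .halt ∧ (∀ j < k, C.lab (C.conf x j).1 ≠ .halt) ∧ (C.conf x k).2 o = y

def Chart.Computes (C : Chart F) (o : ℕ) (f : ℕ →. ℕ) : Prop :=
  ∀ x y, y ∈ f x ↔ ∃ k, C.Halts o x k y

def Universal (F : Interp) (o : ℕ) : Prop := ∀ f : ℕ →. ℕ, Partrec f → ∃ C : Chart F, C.Computes o f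

def Cls (F : Interp) (o : ℕ) (t : ℕ → ℕ) : Set (ℕ → ℕ) :=
  {f | ∃ C : Chart F, C.Computes o f ∧ ∀ᶠ x in cofinite, ∃ k y, C.Halts o x k y ∧ k + 1 ≤ t x}

def ev (v : Fin 3 → ℕ) : Option ℕ := evaln (v 2) (Denumerable.ofNat _ (v 0)) (v 1)

theorem ev_c : Primrec ev :=
  primrec_evaln.comp ((((Primrec.fin_app.comp .id (.const 2))).pair ((Primrec.ofNat _).comp
    (Primrec.fin_app.comp .id (.const 0)))).pair (Primrec.fin_app.comp .id (.const 1)))

def I : Interp where
  fn n := {f | ∃ h : n = 3, f = h ▸ (fun v => v 0 + 1) ∨ f = h ▸ fun v => (ev v).getD 0}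
  pr n := {f | ∃ h : n = 3, f = h ▸ fun v => (ev v).isSome}
  cf := by
    rintro _ _ ⟨rfl, rfl | rfl⟩
    exacts [(Primrec.succ.comp (Primrec.fin_app.comp .id (.const 0))).to_comp,
      (Primrec.option_getD.comp ev_c (.const 0)).to_comp]
  cp := by
    rintro _ _ ⟨rfl, rfl⟩
    exact (Primrec.option_isSome.comp ev_c).to_comp

theorem conf_succ (C : Chart F) (x k : ℕ) : C.conf x (k + 1) = C.step (C.conf x k) :=
  Function.iterate_succ_apply' ..

theorem computes (C : Chart F) {o : ℕ} {f : ℕ →. ℕ}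
    (h1 : ∀ x k, C.lab (C.conf x k).1 = .halt → (C.conf x k).2 o ∈ f x)
    (h2 : ∀ x, (f x).Dom → ∃ k, C.lab (C.conf x k).1 = .halt) : C.Computes o f := by
  classical
  refine fun x y => ⟨fun h => ?_, fun ⟨k, e, _, q⟩ => q ▸ h1 x k e⟩
  have := h2 x h.1
  exact ⟨_, Nat.find_spec this, fun _ => Nat.find_min this,
    Part.mem_unique (h1 _ _ (Nat.find_spec this)) h⟩

def U (o e : ℕ) : Chart I where
  N := Fin (e + 1) ⊕ Fin 4
  fin := inferInstance
  lab
    | .inl j => if h : j.1 < e then .op 3 (fun v => v 0 + 1) (fun _ => o + 1) (o + 1) (.inl ⟨j + 1, by omega⟩)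
        else .test 3 (fun v => (ev v).isSome) ![o + 1, 0, o + 2] (.inr 2) (.inr 1)
    | .inr 0 => .start (.inl 0)
    | .inr 1 => .op 3 (fun v => v 0 + 1) (fun _ => o + 2) (o + 2) (.inl (Fin.last e))
    | .inr 2 => .op 3 (fun v => (ev v).getD 0) ![o + 1, 0, o + 2] o (.inr 3)
    | .inr 3 => .halt
  s := .inr 0
  st := by
    rintro (j | j)
    · dsimp only; split_ifs <;> simp
    · fin_cases j <;> simp
  o1 := by
    rintro (j | j) n f a y k h
    · dsimp only at h; split_ifs at h; cases h; exact ⟨rfl, .inl rfl⟩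
    · fin_cases j <;> cases h
      exacts [⟨rfl, .inl rfl⟩, ⟨rfl, .inr rfl⟩]
  o2 := by
    rintro (j | j) n f a y k h
    · dsimp only at h; split_ifs at h; cases h; exact ⟨rfl, rfl⟩
    · fin_cases j <;> cases h

theorem univ (o : ℕ) : Universal I o := fun f hf => by
  obtain ⟨c, rfl⟩ := exists_code.1 (Partrec.nat_iff.1 hf)
  obtain ⟨e, rfl⟩ : ∃ e, c = Denumerable.ofNat _ e := ⟨_, (Denumerable.ofNat_encode c).symm⟩
  let E : ℕ → ℕ → Option ℕ := fun s => evaln s (Denumerable.ofNat _ e)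
  refine ⟨U o e, computes _ (fun x k => ?_) fun x h => ?_⟩
  · let P : (U o e).N × (ℕ → ℕ) → Prop := fun c => match c.1 with
      | .inl j => c.2 0 = x ∧ c.2 (o + 1) = j
      | .inr 0 => c.2 0 = x ∧ c.2 (o + 1) = 0
      | .inr 1 => c.2 0 = x ∧ c.2 (o + 1) = e
      | .inr 2 => c.2 0 = x ∧ c.2 (o + 1) = e ∧ (E (c.2 (o + 2)) x).isSome
      | .inr 3 => c.2 o ∈ eval (Denumerable.ofNat _ e) x
    have : P ((U o e).conf x k) := by
      induction k with
      | zero => exact ⟨rfl, rfl⟩
      | succ k ih =>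
        rw [conf_succ]
        generalize (U o e).conf x k = c at ih
        obtain ⟨j | j, v⟩ := c
        · by_cases q : j.1 < e
          · simpa [Chart.step, U, q, P] using ih
          · have : j.1 = e := by omega
            by_cases r : (E (v (o + 2)) x).isSome <;> simp_all [Chart.step, U, P, ev, E]
        · fin_cases j
          · exact ih
          · simpa [Chart.step, U, P] using ih
          · obtain ⟨h1, h2, h3⟩ := ih
            obtain ⟨y, hy⟩ := Option.isSome_iff_exists.1 h3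
            dsimp only at h1 h2 hy
            simpa [Chart.step, U, P, ev, h1, h2, show evaln _ _ _ = _ from hy]
              using evaln_sound hy
          · exact ih
    generalize (U o e).conf x k = c at this
    obtain ⟨j | j, v⟩ := c
    · simp only [U]; split_ifs <;> simp
    · fin_cases j <;> simp [U]
      exact this
  · obtain ⟨s, hs⟩ := evaln_complete.1 (Part.get_mem h)
    have k1 : ∀ j (q : j < e + 1), ∃ k v, (U o e).conf x k = (.inl ⟨j, q⟩, v) ∧ v 0 = x ∧
        v (o + 1) = j ∧ v (o + 2) = 0 := fun j => by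
      induction j with
      | zero => exact fun _ => ⟨1, _, rfl, rfl, rfl, rfl⟩
      | succ j ih =>
        intro q
        obtain ⟨k, v, h1, h2⟩ := ih (by omega)
        exact ⟨k + 1, Function.update v (o + 1) (v (o + 1) + 1), by
          rw [conf_succ, h1]; simp [Chart.step, U, show j < e by omega], by simpa using h2⟩
    by_contra! n
    have k3 : ∀ k v, (U o e).conf x k = (.inl (Fin.last e), v) → v 0 = x → v (o + 1) = e →
        ¬ (E (v (o + 2)) x).isSome := fun k v h1 h2 h3 h4 => n (k + 1 + 1) (by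
      rw [conf_succ, conf_succ, h1]
      simp [Chart.step, U, ev, h2, h3, show (evaln _ _ _).isSome from h4])
    have k2 : ∀ s, ∃ k v, (U o e).conf x k = (.inl (Fin.last e), v) ∧ v 0 = x ∧
        v (o + 1) = e ∧ v (o + 2) = s := fun s => by
      induction s with
      | zero => exact k1 e _
      | succ s ih =>
        obtain ⟨k, v, h1, h2, h3, h4⟩ := ih
        have := k3 k v h1 h2 h3
        refine ⟨k + 1 + 1, Function.update v (o + 2) (v (o + 2) + 1), ?_, by simp [h2, h3, h4]⟩
        rw [conf_succ, conf_succ, h1]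
        simp [Chart.step, U, ev, h2, h3, show ¬ (evaln _ _ _).isSome from this]
    obtain ⟨k, v, h1, h2, h3, rfl⟩ := k2 s
    exact k3 k v h1 h2 h3 (Option.isSome_iff_exists.2 ⟨_, hs⟩)

def S (o : ℕ) : Chart I where
  N := Fin 3
  fin := inferInstance
  lab := ![.start 1, .op 3 (fun v => v 0 + 1) (fun _ => 0) o 2, .halt]
  s := 0
  st i := by fin_cases i <;> simp
  o1 i n f a y k h := by fin_cases i <;> cases h; exact ⟨rfl, .inl rfl⟩
  o2 i n f a y k h := by fin_cases i <;> cases h

theorem result (o : ℕ) : ∃ F : Interp, (⋃ n, Sigma.mk n '' F.fn n).Finite ∧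
    (⋃ n, Sigma.mk n '' F.pr n).Finite ∧ Universal F o ∧ ∃ f g t : ℕ → ℕ,
    Computable f ∧ Computable g ∧ Computable t ∧ (∀ᶠ x in cofinite, f x = g x) ∧
    f ∈ Cls F o t ∧ g ∉ Cls F o t := by
  refine ⟨I, (Set.toFinite {⟨3, fun v => v 0 + 1⟩, ⟨3, fun v => (ev v).getD 0⟩}).subset ?_,
    (Set.toFinite {⟨3, fun v => (ev v).isSome⟩}).subset ?_, univ o, Nat.succ,
    fun x => if x = 0 then 2 else x + 1, fun _ => 3, .succ, (Primrec.ite (Primrec.eq.comp .id
      (.const 0)) (.const 2) .succ).to_comp, .const 3, ?_, ⟨S o, ?_, .of_forall fun x => ?_⟩, ?_⟩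
  · simp only [Set.iUnion_subset_iff]
    rintro _ _ ⟨_, ⟨rfl, rfl | rfl⟩, rfl⟩ <;> simp
  · simp only [Set.iUnion_subset_iff]
    rintro _ _ ⟨_, ⟨rfl, rfl⟩, rfl⟩; simp
  · exact (Set.finite_singleton 0).subset fun x h => by by_contra c; exact h (if_neg c).symm
  · refine computes _ (fun x k => ?_) fun x _ => ⟨2, rfl⟩
    rcases k with _ | _ | k
    · rintro ⟨⟩
    · rintro ⟨⟩
    · have : (S o).conf x (k + 2) = (S o).conf x 2 := by
        induction k with
        | zero => rfl
        | succ k ih => rw [conf_succ, ih]; rfl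
      rw [this]
      simp [Chart.conf, Chart.step, S]
  · refine ⟨2, _, ⟨rfl, fun j h => ?_, rfl⟩, le_rfl⟩
    interval_cases j <;> rintro ⟨⟩
  · rintro ⟨C, h1, h2⟩
    obtain ⟨x, ⟨k, y, h, hk⟩, x2⟩ := (h2.and (Nat.cofinite_eq_atTop ▸ eventually_ge_atTop 1)).exists
    have hy : y = x + 1 := by simpa [show x ≠ 0 by omega] using (h1 x y).2 ⟨k, h⟩
    obtain ⟨j, hj⟩ := (C.st _).2 rfl
    have c1 : ∀ x, C.conf x 1 = (j, fun v => if v = 0 then x else 0) := fun x => by
      simp [Chart.conf, Chart.step, hj]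
    have ne : (if o = 0 then x else 0) ≠ x + 1 := by split_ifs <;> omega
    obtain ⟨k1, k2, k3⟩ := h
    have : k < 3 := hk
    interval_cases k
    · cases hj.symm.trans k1
    · exact ne (by rw [← hy, ← k3, c1])
    rw [conf_succ, c1] at k1 k3
    cases q : C.lab j with
    | start => exact ne (by simpa [Chart.step, q, hy] using k3)
    | test => exact ne (by simpa [Chart.step, q, hy] using k3)
    | halt => exact k2 1 one_lt_two (by rw [c1]; exact q)
    | op n f a z i =>
      have := (h1 0 _).2 ⟨2, by rw [conf_succ, c1]; simpa [Chart.step, q] using k1, fun m hm => by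
        interval_cases m
        exacts [by rw [show (C.conf 0 0).1 = C.s from rfl, hj]; simp, by rw [c1, q]; simp], rfl⟩
      rw [conf_succ, c1] at this
      obtain ⟨rfl, rfl | rfl⟩ := C.o1 _ _ _ _ _ _ q <;>
        simp [Chart.step, q, Function.update_apply, ev, evaln] at this
      split_ifs at this; omega

end Pool.Agent.Results.MP_091941_lc.NotInv
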